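import Pool.Agent.Helper44.BB.Stmts

set_option autoImplicit false

/-! # Module DIV: a divisor in a given interval -/

namespace Pool.Agent.Helper44.BB

theorem st_DIV : ST_DIV := by
  classical
  intro n Q W hn hW hWQ hWn hp
  have hex : ∃ w : ℕ, w ∣ n ∧ W ≤ w := ⟨n, dvd_rfl, hWn⟩
  obtain ⟨w, ⟨hwn, hWw⟩, hmin⟩ : ∃ w : ℕ, (w ∣ n ∧ W ≤ w) ∧
      ∀ m : ℕ, m < w → ¬ (m ∣ n ∧ W ≤ m) :=
    ⟨Nat.find hex, Nat.find_spec hex, fun m hm => Nat.find_min hex hm⟩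
  have hWW : W ≤ W ^ 2 := by nlinarith
  have hw0 : w ≠ 0 := fun h => hn (Nat.eq_zero_of_zero_dvd (h ▸ hwn))
  by_cases h1 : w = 1
  · refine ⟨w, hwn, hWw, ?_⟩
    rw [h1]
    push_cast
    linarith
  obtain ⟨q, hq, hqw⟩ := Nat.exists_prime_and_dvd h1
  by_cases hqW : W ≤ q
  · exact ⟨q, hqw.trans hwn, hqW, hp q hq (hqw.trans hwn)⟩
  obtain ⟨m, rfl⟩ := hqw
  have hm0 : 0 < m := Nat.pos_of_ne_zero fun h => hw0 (by rw [h, mul_zero])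
  have hm1 : m < q * m := by nlinarith [hq.two_le]
  have hm2 : (m : ℝ) < W := by
    by_contra h
    exact hmin m hm1 ⟨(Dvd.intro_left q rfl).trans hwn, not_lt.1 h⟩
  refine ⟨q * m, hwn, hWw, ?_⟩
  push_cast
  have hm3 : (0 : ℝ) < m := Nat.cast_pos.2 hm0
  have hq3 : (0 : ℝ) < q := Nat.cast_pos.2 hq.pos
  have hqW' : (q : ℝ) < W := not_le.1 hqW
  nlinarith

end Pool.Agent.Helper44.BB
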